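import Pool.Agent.Y262.EG.Stm

/-!
# Project EG: invariant functions are locally constant where the curvature is negative
-/

set_option autoImplicit false

open Set Filter Topology MeasureTheory
open scoped ContDiff

noncomputable section

namespace Pool.Agent.Y319.EG

open Pool.Agent.Y262.EG

/-- products with a function which is smooth near the support -/
lemma mulExt {O : Set Y} (hO : IsOpen O) {b u : Y → ℝ} (hb : ContDiffOn ℝ 1 b O)
    (hu : ContDiff ℝ 1 u) (hsu : tsupport u ⊆ O) : ContDiff ℝ 1 (fun p => b p * u p) := by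
  rw [contDiff_iff_contDiffAt]
  intro p
  by_cases hp : p ∈ O
  · exact (hb.contDiffAt (hO.mem_nhds hp)).mul hu.contDiffAt
  · have h1 : p ∉ tsupport u := fun h => hp (hsu h)
    have h2 := notMem_tsupport_iff_eventuallyEq.mp h1
    have h3 : (fun p => b p * u p) =ᶠ[𝓝 p] fun _ => (0 : ℝ) := by
      filter_upwards [h2] with x hx
      simp [hx]
    exact contDiffAt_const.congr_of_eventuallyEq h3

lemma tsup_mul {b u : Y → ℝ} : tsupport (fun p => b p * u p) ⊆ tsupport u :=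
  tsupport_mul_subset_right

/-- the functions which are integrated -/
lemma gCont {O : Set Y} (hO : IsOpen O) {v : Y → ℝ} (hv : ContDiff ℝ 1 v) (hsv : tsupport v ⊆ O)
    {W : Y → Y} (hW : ContinuousOn W O) {e : Y → ℝ} (he : ContinuousOn e O) :
    Continuous (fun p => fderiv ℝ v p (W p) * e p) := by
  rw [continuous_iff_continuousAt]
  intro p
  by_cases hp : p ∈ O
  · have h1 : ContinuousAt (fderiv ℝ v) p := (hv.continuous_fderiv (by norm_num)).continuousAt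
    have h2 : ContinuousAt W p := hW.continuousAt (hO.mem_nhds hp)
    have h3 : ContinuousAt e p := he.continuousAt (hO.mem_nhds hp)
    exact (h1.clm_apply h2).mul h3
  · have h1 : p ∉ tsupport v := fun h => hp (hsv h)
    have h2 := notMem_tsupport_iff_eventuallyEq.mp h1
    have h3 : (fun p => fderiv ℝ v p (W p) * e p) =ᶠ[𝓝 p] fun _ => (0 : ℝ) := by
      have h4 := h2.fderiv (𝕜 := ℝ)
      filter_upwards [h4] with x hx
      have h5 : fderiv ℝ (0 : Y → ℝ) x = 0 := by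
        have : (0 : Y → ℝ) = fun _ => (0 : ℝ) := rfl
        rw [this]
        exact fderiv_const_apply _
      rw [hx, h5]
      simp
    exact continuousAt_const.congr h3.symm

lemma gSup {v : Y → ℝ} (hv : HasCompactSupport v) (W : Y → Y) (e : Y → ℝ) :
    HasCompactSupport (fun p => fderiv ℝ v p (W p) * e p) := by
  refine HasCompactSupport.intro (K := tsupport v) hv ?_
  intro x hx
  rw [fderiv_of_notMem_tsupport (𝕜 := ℝ) hx]
  simp

/-- a linear functional in coordinates -/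
lemma fun_coord (D : ℂ →L[ℝ] ℝ) (a b : ℝ) : D (⟨a, b⟩ : ℂ) = a * D 1 + b * D Complex.I := by
  have h : (⟨a, b⟩ : ℂ) = a • (1 : ℂ) + b • Complex.I := by
    apply Complex.ext <;> simp
  rw [h, map_add, map_smul, map_smul, smul_eq_mul, smul_eq_mul]

lemma fun_coord' (U : Y →L[ℝ] ℝ) (a b t : ℝ) : U ((⟨a, b⟩ : ℂ), t) =
    a * U ((1 : ℂ), (0 : ℝ)) + b * U (Complex.I, (0 : ℝ)) + t * U ((0 : ℂ), (1 : ℝ)) := by
  have h : (((⟨a, b⟩ : ℂ), t) : Y) = a • (((1 : ℂ), (0 : ℝ)) : Y) + b • ((Complex.I, (0 : ℝ)) : Y)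
      + t • (((0 : ℂ), (1 : ℝ)) : Y) := by
    refine Prod.ext ?_ ?_
    · apply Complex.ext <;> simp
    · simp
  rw [h, map_add, map_add, map_smul, map_smul, map_smul, smul_eq_mul, smul_eq_mul, smul_eq_mul]

section cal

variable {Ω : Set ℂ} {φ : ℂ → ℝ}

lemma fd_phi (hΩ : IsOpen Ω) (hφ : ContDiffOn ℝ ∞ φ Ω) {p : Y} (hp : p ∈ YO Ω) :
    HasFDerivAt (fun p : Y => φ p.1) ((fderiv ℝ φ p.1).comp (ContinuousLinearMap.fst ℝ ℂ ℝ)) p := by
  have h1 : DifferentiableAt ℝ φ p.1 :=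
    (hφ.contDiffAt (hΩ.mem_nhds hp)).differentiableAt (by simp)
  exact h1.hasFDerivAt.comp p hasFDerivAt_fst

lemma opnYO (hΩ : IsOpen Ω) : IsOpen (YO Ω) := hΩ.preimage continuous_fst

lemma sm_phi (hφ : ContDiffOn ℝ ∞ φ Ω) : ContDiffOn ℝ 1 (fun p : Y => φ p.1) (YO Ω) := by
  have h1 : ContDiffOn ℝ 1 φ Ω := hφ.of_le (by exact_mod_cast le_top)
  exact h1.comp contDiff_fst.contDiffOn (fun p hp => hp)

lemma sm_d (hΩ : IsOpen Ω) (hφ : ContDiffOn ℝ ∞ φ Ω) (v : ℂ) :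
    ContDiffOn ℝ 1 (fun p : Y => fderiv ℝ φ p.1 v) (YO Ω) := by
  have h1 : ContDiffOn ℝ 1 (fun z => fderiv ℝ φ z) Ω :=
    hφ.fderiv_of_isOpen hΩ (by norm_cast)
  have h2 : ContDiffOn ℝ 1 (fun z => fderiv ℝ φ z v) Ω := h1.clm_apply contDiffOn_const
  exact h2.comp contDiff_fst.contDiffOn (fun p hp => hp)

end cal


/-- the coefficients in the direction `1` and `I` -/
def b1 (φ : ℂ → ℝ) (p : Y) : ℝ := Real.exp (-φ p.1) * Real.cos p.2
def b2 (φ : ℂ → ℝ) (p : Y) : ℝ := Real.exp (-φ p.1) * Real.sin p.2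
def b3 (φ : ℂ → ℝ) (v : ℂ) (p : Y) : ℝ :=
  fderiv ℝ φ p.1 v * (Real.exp (-φ p.1) * Real.exp (-φ p.1))
def b0 (φ : ℂ → ℝ) (p : Y) : ℝ := Real.exp (-φ p.1) * Real.exp (-φ p.1)

section cal2

variable {Ω : Set ℂ} {φ : ℂ → ℝ}

lemma sm_exp (hφ : ContDiffOn ℝ ∞ φ Ω) :
    ContDiffOn ℝ 1 (fun p : Y => Real.exp (-φ p.1)) (YO Ω) := (sm_phi hφ).neg.exp

lemma sm_b1 (hφ : ContDiffOn ℝ ∞ φ Ω) : ContDiffOn ℝ 1 (b1 φ) (YO Ω) :=
  (sm_exp hφ).mul (contDiff_snd.cos).contDiffOn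

lemma sm_b2 (hφ : ContDiffOn ℝ ∞ φ Ω) : ContDiffOn ℝ 1 (b2 φ) (YO Ω) :=
  (sm_exp hφ).mul (contDiff_snd.sin).contDiffOn

lemma sm_b0 (hφ : ContDiffOn ℝ ∞ φ Ω) : ContDiffOn ℝ 1 (b0 φ) (YO Ω) :=
  (sm_exp hφ).mul (sm_exp hφ)

lemma sm_b3 (hΩ : IsOpen Ω) (hφ : ContDiffOn ℝ ∞ φ Ω) (v : ℂ) :
    ContDiffOn ℝ 1 (b3 φ v) (YO Ω) := (sm_d hΩ hφ v).mul (sm_b0 hφ)

lemma fd_b1 (hΩ : IsOpen Ω) (hφ : ContDiffOn ℝ ∞ φ Ω) {p : Y} (hp : p ∈ YO Ω) (a b t : ℝ) :
    fderiv ℝ (b1 φ) p ((⟨a, b⟩ : ℂ), t) =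
      -(Real.exp (-φ p.1) * ((a * px φ p.1 + b * py φ p.1) * Real.cos p.2 + Real.sin p.2 * t)) := by
  have h1 := (fd_phi hΩ hφ hp).neg.exp.mul
    ((hasFDerivAt_snd (𝕜 := ℝ) (E := ℂ) (F := ℝ) (p := p)).cos)
  have h2 : HasFDerivAt (b1 φ) _ p := h1
  rw [h2.fderiv]
  have h3 := fun_coord (fderiv ℝ φ p.1) a b
  simp only [ContinuousLinearMap.add_apply, ContinuousLinearMap.smul_apply,
    ContinuousLinearMap.neg_apply, Pi.neg_apply, ContinuousLinearMap.comp_apply, ContinuousLinearMap.coe_fst',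
    ContinuousLinearMap.coe_snd', smul_eq_mul, h3]
  simp only [px, py]
  ring

lemma fd_b2 (hΩ : IsOpen Ω) (hφ : ContDiffOn ℝ ∞ φ Ω) {p : Y} (hp : p ∈ YO Ω) (a b t : ℝ) :
    fderiv ℝ (b2 φ) p ((⟨a, b⟩ : ℂ), t) =
      -(Real.exp (-φ p.1) * ((a * px φ p.1 + b * py φ p.1) * Real.sin p.2 - Real.cos p.2 * t)) := by
  have h1 := (fd_phi hΩ hφ hp).neg.exp.mul
    ((hasFDerivAt_snd (𝕜 := ℝ) (E := ℂ) (F := ℝ) (p := p)).sin)
  have h2 : HasFDerivAt (b2 φ) _ p := h1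
  rw [h2.fderiv]
  have h3 := fun_coord (fderiv ℝ φ p.1) a b
  simp only [ContinuousLinearMap.add_apply, ContinuousLinearMap.smul_apply,
    ContinuousLinearMap.neg_apply, Pi.neg_apply, ContinuousLinearMap.comp_apply, ContinuousLinearMap.coe_fst',
    ContinuousLinearMap.coe_snd', smul_eq_mul, h3]
  simp only [px, py]
  ring

/-- functions of the base point have vertical derivative zero -/
lemma fd_base (h : ℂ → ℝ) (p : Y) (hd : DifferentiableAt ℝ (fun p : Y => h p.1) p) :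
    fderiv ℝ (fun p : Y => h p.1) p VV = 0 := by
  have h1 : HasFDerivAt (fun p : Y => h p.1) (fderiv ℝ (fun p : Y => h p.1) p) p := hd.hasFDerivAt
  have h2 : HasDerivAt (fun t : ℝ => ((p.1, p.2 + t) : Y)) (VV) 0 := by
    have h3 : HasDerivAt (fun t : ℝ => p.1) (0 : ℂ) (0 : ℝ) := hasDerivAt_const _ _
    have h4 : HasDerivAt (fun t : ℝ => p.2 + t) (1 : ℝ) 0 := (hasDerivAt_id (0 : ℝ)).const_add _
    exact h3.prodMk h4
  have h5 : ((p.1, p.2 + 0) : Y) = p := by simp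
  have h6 : HasFDerivAt (fun p : Y => h p.1) (fderiv ℝ (fun p : Y => h p.1) p)
      ((p.1, p.2 + 0) : Y) := by rw [h5]; exact h1
  have h7 := h6.comp_hasDerivAt (0 : ℝ) h2
  have h8 : HasDerivAt ((fun p : Y => h p.1) ∘ fun t : ℝ => ((p.1, p.2 + t) : Y)) 0 0 := by
    have : ((fun p : Y => h p.1) ∘ fun t : ℝ => ((p.1, p.2 + t) : Y)) = fun _ => h p.1 := by
      funext t; rfl
    rw [this]
    exact hasDerivAt_const _ _
  exact h7.unique h8

lemma fd_b0 (hΩ : IsOpen Ω) (hφ : ContDiffOn ℝ ∞ φ Ω) {p : Y} (hp : p ∈ YO Ω) :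
    fderiv ℝ (b0 φ) p VV = 0 := by
  have h1 : DifferentiableAt ℝ (b0 φ) p :=
    ((sm_b0 hφ).contDiffAt ((opnYO hΩ).mem_nhds hp)).differentiableAt (by simp)
  exact fd_base (fun z => Real.exp (-φ z) * Real.exp (-φ z)) p h1

lemma fd_b3 (hΩ : IsOpen Ω) (hφ : ContDiffOn ℝ ∞ φ Ω) (v : ℂ) {p : Y} (hp : p ∈ YO Ω) :
    fderiv ℝ (b3 φ v) p VV = 0 := by
  have h1 : DifferentiableAt ℝ (b3 φ v) p :=
    ((sm_b3 hΩ hφ v).contDiffAt ((opnYO hΩ).mem_nhds hp)).differentiableAt (by simp)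
  exact fd_base (fun z => fderiv ℝ φ z v * (Real.exp (-φ z) * Real.exp (-φ z))) p h1

lemma fd_mul (hΩ : IsOpen Ω) {b u : Y → ℝ} (hb : ContDiffOn ℝ 1 b (YO Ω)) (hu : ContDiff ℝ 1 u)
    {p : Y} (hp : p ∈ YO Ω) (w : Y) :
    fderiv ℝ (fun p => b p * u p) p w = b p * fderiv ℝ u p w + u p * fderiv ℝ b p w := by
  have h1 : DifferentiableAt ℝ b p :=
    (hb.contDiffAt ((opnYO hΩ).mem_nhds hp)).differentiableAt (by simp)
  have h2 : DifferentiableAt ℝ u p := hu.contDiffAt.differentiableAt (by simp)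
  have h3 := (h1.hasFDerivAt.mul h2.hasFDerivAt).fderiv
  have h4 : fderiv ℝ (fun p => b p * u p) p = _ := h3
  rw [h4]
  simp only [ContinuousLinearMap.add_apply, ContinuousLinearMap.smul_apply, smul_eq_mul]

lemma exp_E2 (a : ℝ) : Real.exp (2 * a) * (Real.exp (-a)) ^ 2 = 1 := by
  rw [pow_two, ← Real.exp_add, ← Real.exp_add]
  ring_nf
  exact Real.exp_zero

/-- the direction `1` -/
lemma comb1 (hΩ : IsOpen Ω) (hφ : ContDiffOn ℝ ∞ φ Ω) {u : Y → ℝ} (hu : ContDiff ℝ 1 u) {p : Y}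
    (hp : p ∈ YO Ω) : fderiv ℝ u p ((1 : ℂ), (0 : ℝ)) =
      fderiv ℝ (fun p => b1 φ p * u p) p (XX φ p) * Real.exp (2 * φ p.1)
      - fderiv ℝ (fun p => b2 φ p * u p) p (HH φ p) * Real.exp (2 * φ p.1)
      - fderiv ℝ (fun p => b3 φ Complex.I p * u p) p VV * Real.exp (2 * φ p.1) := by
  rw [fd_mul hΩ (sm_b1 hφ) hu hp, fd_mul hΩ (sm_b2 hφ) hu hp, fd_mul hΩ (sm_b3 hΩ hφ _) hu hp,
    fd_b3 hΩ hφ _ hp]
  have e1 : XX φ p = ((⟨Real.exp (-φ p.1) * Real.cos p.2, Real.exp (-φ p.1) * Real.sin p.2⟩ : ℂ),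
    Real.exp (-φ p.1) * (-(px φ p.1) * Real.sin p.2 + py φ p.1 * Real.cos p.2)) := rfl
  have e2 : HH φ p = ((⟨-(Real.exp (-φ p.1) * Real.sin p.2), Real.exp (-φ p.1) * Real.cos p.2⟩ : ℂ),
    -(Real.exp (-φ p.1) * (px φ p.1 * Real.cos p.2 + py φ p.1 * Real.sin p.2))) := rfl
  have e3 : VV = (((0 : ℂ), (1 : ℝ)) : Y) := rfl
  rw [e1, e2, e3, fd_b1 hΩ hφ hp, fd_b2 hΩ hφ hp,
    fun_coord' (fderiv ℝ u p) (Real.exp (-φ p.1) * Real.cos p.2) (Real.exp (-φ p.1) * Real.sin p.2),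
    fun_coord' (fderiv ℝ u p) (-(Real.exp (-φ p.1) * Real.sin p.2))
      (Real.exp (-φ p.1) * Real.cos p.2)]
  simp only [b1, b2, b3]
  have hcs := Real.sin_sq_add_cos_sq p.2
  have hE := exp_E2 (φ p.1)
  have e4 : fderiv ℝ φ p.1 Complex.I = py φ p.1 := rfl
  rw [e4]
  generalize Real.exp (2 * φ p.1) = E2 at *
  generalize Real.exp (-φ p.1) = e at *
  generalize Real.sin p.2 = s at *
  generalize Real.cos p.2 = c at *
  generalize px φ p.1 = P at *
  generalize py φ p.1 = Q at *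
  generalize fderiv ℝ u p ((1 : ℂ), (0 : ℝ)) = U1 at *
  generalize fderiv ℝ u p (Complex.I, (0 : ℝ)) = U2 at *
  generalize fderiv ℝ u p ((0 : ℂ), (1 : ℝ)) = U3 at *
  generalize u p = v at *
  linear_combination (-U1) * hE - E2 * e ^ 2 * (U1 + Q * U3) * hcs

/-- the direction `I` -/
lemma comb2 (hΩ : IsOpen Ω) (hφ : ContDiffOn ℝ ∞ φ Ω) {u : Y → ℝ} (hu : ContDiff ℝ 1 u) {p : Y}
    (hp : p ∈ YO Ω) : fderiv ℝ u p (Complex.I, (0 : ℝ)) =
      fderiv ℝ (fun p => b2 φ p * u p) p (XX φ p) * Real.exp (2 * φ p.1)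
      + fderiv ℝ (fun p => b1 φ p * u p) p (HH φ p) * Real.exp (2 * φ p.1)
      + fderiv ℝ (fun p => b3 φ 1 p * u p) p VV * Real.exp (2 * φ p.1) := by
  rw [fd_mul hΩ (sm_b1 hφ) hu hp, fd_mul hΩ (sm_b2 hφ) hu hp, fd_mul hΩ (sm_b3 hΩ hφ _) hu hp,
    fd_b3 hΩ hφ _ hp]
  have e1 : XX φ p = ((⟨Real.exp (-φ p.1) * Real.cos p.2, Real.exp (-φ p.1) * Real.sin p.2⟩ : ℂ),
    Real.exp (-φ p.1) * (-(px φ p.1) * Real.sin p.2 + py φ p.1 * Real.cos p.2)) := rfl
  have e2 : HH φ p = ((⟨-(Real.exp (-φ p.1) * Real.sin p.2), Real.exp (-φ p.1) * Real.cos p.2⟩ : ℂ),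
    -(Real.exp (-φ p.1) * (px φ p.1 * Real.cos p.2 + py φ p.1 * Real.sin p.2))) := rfl
  have e3 : VV = (((0 : ℂ), (1 : ℝ)) : Y) := rfl
  rw [e1, e2, e3, fd_b1 hΩ hφ hp, fd_b2 hΩ hφ hp,
    fun_coord' (fderiv ℝ u p) (Real.exp (-φ p.1) * Real.cos p.2) (Real.exp (-φ p.1) * Real.sin p.2),
    fun_coord' (fderiv ℝ u p) (-(Real.exp (-φ p.1) * Real.sin p.2))
      (Real.exp (-φ p.1) * Real.cos p.2)]
  simp only [b1, b2, b3]
  have hcs := Real.sin_sq_add_cos_sq p.2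
  have hE := exp_E2 (φ p.1)
  have e4 : fderiv ℝ φ p.1 1 = px φ p.1 := rfl
  rw [e4]
  generalize Real.exp (2 * φ p.1) = E2 at *
  generalize Real.exp (-φ p.1) = e at *
  generalize Real.sin p.2 = s at *
  generalize Real.cos p.2 = c at *
  generalize px φ p.1 = P at *
  generalize py φ p.1 = Q at *
  generalize fderiv ℝ u p ((1 : ℂ), (0 : ℝ)) = U1 at *
  generalize fderiv ℝ u p (Complex.I, (0 : ℝ)) = U2 at *
  generalize fderiv ℝ u p ((0 : ℂ), (1 : ℝ)) = U3 at *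
  generalize u p = v at *
  linear_combination (-U2) * hE - E2 * e ^ 2 * (U2 - P * U3) * hcs

/-- the vertical direction -/
lemma comb3 (hΩ : IsOpen Ω) (hφ : ContDiffOn ℝ ∞ φ Ω) {u : Y → ℝ} (hu : ContDiff ℝ 1 u) {p : Y}
    (hp : p ∈ YO Ω) : fderiv ℝ u p ((0 : ℂ), (1 : ℝ)) =
      fderiv ℝ (fun p => b0 φ p * u p) p VV * Real.exp (2 * φ p.1) := by
  rw [fd_mul hΩ (sm_b0 hφ) hu hp, fd_b0 hΩ hφ hp]
  have e3 : VV = (((0 : ℂ), (1 : ℝ)) : Y) := rfl
  rw [e3]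
  simp only [b0]
  have hE := exp_E2 (φ p.1)
  generalize Real.exp (2 * φ p.1) = E2 at *
  generalize Real.exp (-φ p.1) = e at *
  generalize fderiv ℝ u p ((0 : ℂ), (1 : ℝ)) = U3 at *
  linear_combination (-U3) * hE

end cal2


lemma int3s {f g h : Y → ℝ} (hf : Integrable f volume) (hg : Integrable g volume)
    (hh : Integrable h volume) (f0 : ∫ p, f p = 0) (g0 : ∫ p, g p = 0) (h0 : ∫ p, h p = 0) :
    ∫ p, (f p - g p - h p) = 0 := by
  have e1 : ∫ p, (f p - g p) = 0 := by rw [integral_sub hf hg, f0, g0, sub_zero]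
  have e2 : Integrable (fun p => f p - g p) volume := hf.sub hg
  rw [integral_sub e2 hh, e1, h0, sub_zero]

lemma int3a {f g h : Y → ℝ} (hf : Integrable f volume) (hg : Integrable g volume)
    (hh : Integrable h volume) (f0 : ∫ p, f p = 0) (g0 : ∫ p, g p = 0) (h0 : ∫ p, h p = 0) :
    ∫ p, (f p + g p + h p) = 0 := by
  have e1 : ∫ p, (f p + g p) = 0 := by rw [integral_add hf hg, f0, g0, add_zero]
  have e2 : Integrable (fun p => f p + g p) volume := hf.add hg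
  rw [integral_add e2 hh, e1, h0, add_zero]

lemma three (hFrame : StFrame) {Ω : Set ℂ} {φ : ℂ → ℝ} (hΩ : IsOpen Ω) (hφ : ContDiffOn ℝ ∞ φ Ω)
    {F : Y → ℝ} {p0 : Y} {r C : ℝ} (hball : Metric.ball p0 r ⊆ YO Ω)
    (hF : AEStronglyMeasurable F volume) (hFb : ∀ p, |F p| ≤ C)
    (hF0 : ∀ p, p ∉ Metric.ball p0 r → F p = 0)
    (key : ∀ W, Fr φ W → ∀ v : Y → ℝ, ContDiff ℝ 1 v → HasCompactSupport v →
      tsupport v ⊆ Metric.ball p0 r →
      ∫ p, F p * (fderiv ℝ v p (W p) * Real.exp (2 * φ p.1)) = 0) :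
    ∀ u : Y → ℝ, ContDiff ℝ 1 u → HasCompactSupport u → tsupport u ⊆ Metric.ball p0 r →
      ∫ p, F p * fderiv ℝ u p ((1 : ℂ), (0 : ℝ)) = 0 ∧
      ∫ p, F p * fderiv ℝ u p (Complex.I, (0 : ℝ)) = 0 ∧
      ∫ p, F p * fderiv ℝ u p ((0 : ℂ), (1 : ℝ)) = 0 := by
  intro u hu huc hus
  obtain ⟨hXs, hHs, -, -⟩ := hFrame Ω φ hΩ hφ
  have hsO : tsupport u ⊆ YO Ω := hus.trans hball
  have he : ContinuousOn (fun p : Y => Real.exp (2 * φ p.1)) (YO Ω) :=
    Real.continuous_exp.comp_continuousOn (continuousOn_const.mul (sm_phi hφ).continuousOn)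
  have hV : ContinuousOn (fun _ : Y => VV) (YO Ω) := continuousOn_const
  -- the integrable functions
  have hint : ∀ W : Y → Y, ContinuousOn W (YO Ω) → ∀ b : Y → ℝ, ContDiffOn ℝ 1 b (YO Ω) →
      Integrable (fun p => F p * (fderiv ℝ (fun p => b p * u p) p (W p) *
        Real.exp (2 * φ p.1))) volume := by
    intro W hW b hb
    have h1 : ContDiff ℝ 1 (fun p => b p * u p) := mulExt (opnYO hΩ) hb hu hsO
    have h2 : HasCompactSupport (fun p => b p * u p) := huc.mul_left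
    have h3 : tsupport (fun p => b p * u p) ⊆ YO Ω := tsup_mul.trans hsO
    have h4 := (gCont (opnYO hΩ) h1 h3 hW he).integrable_of_hasCompactSupport
      (μ := (volume : Measure Y)) (gSup h2 W _)
    exact h4.bdd_mul hF (Filter.Eventually.of_forall fun p => (Real.norm_eq_abs _).le.trans (hFb p))
  have hkey : ∀ W, Fr φ W → ∀ b : Y → ℝ, ContDiffOn ℝ 1 b (YO Ω) →
      ∫ p, F p * (fderiv ℝ (fun p => b p * u p) p (W p) * Real.exp (2 * φ p.1)) = 0 := by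
    intro W hW b hb
    exact key W hW _ (mulExt (opnYO hΩ) hb hu hsO) huc.mul_left (tsup_mul.trans hus)
  have frX : Fr φ (XX φ) := Or.inl rfl
  have frH : Fr φ (HH φ) := Or.inr (Or.inl rfl)
  have frV : Fr φ (fun _ => VV) := Or.inr (Or.inr rfl)
  refine ⟨?_, ?_, ?_⟩
  · have h1 := hint _ hXs.continuousOn _ (sm_b1 hφ)
    have h2 := hint _ hHs.continuousOn _ (sm_b2 hφ)
    have h3 := hint _ hV _ (sm_b3 hΩ hφ Complex.I)
    have h4 : ∫ p, F p * fderiv ℝ u p ((1 : ℂ), (0 : ℝ)) =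
        ∫ p, ((F p * (fderiv ℝ (fun p => b1 φ p * u p) p (XX φ p) * Real.exp (2 * φ p.1))
          - F p * (fderiv ℝ (fun p => b2 φ p * u p) p (HH φ p) * Real.exp (2 * φ p.1)))
          - F p * (fderiv ℝ (fun p => b3 φ Complex.I p * u p) p VV * Real.exp (2 * φ p.1))) := by
      refine integral_congr_ae (Filter.Eventually.of_forall fun p => ?_)
      show F p * fderiv ℝ u p ((1 : ℂ), (0 : ℝ)) = _
      by_cases hp : p ∈ Metric.ball p0 r
      · rw [comb1 hΩ hφ hu (hball hp)]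
        ring
      · simp only [hF0 p hp, zero_mul, sub_zero, add_zero]
    rw [h4]
    exact int3s h1 h2 h3 (hkey _ frX _ (sm_b1 hφ)) (hkey _ frH _ (sm_b2 hφ))
      (hkey _ frV _ (sm_b3 hΩ hφ Complex.I))
  · have h1 := hint _ hXs.continuousOn _ (sm_b2 hφ)
    have h2 := hint _ hHs.continuousOn _ (sm_b1 hφ)
    have h3 := hint _ hV _ (sm_b3 hΩ hφ 1)
    have h4 : ∫ p, F p * fderiv ℝ u p (Complex.I, (0 : ℝ)) =
        ∫ p, ((F p * (fderiv ℝ (fun p => b2 φ p * u p) p (XX φ p) * Real.exp (2 * φ p.1))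
          + F p * (fderiv ℝ (fun p => b1 φ p * u p) p (HH φ p) * Real.exp (2 * φ p.1)))
          + F p * (fderiv ℝ (fun p => b3 φ 1 p * u p) p VV * Real.exp (2 * φ p.1))) := by
      refine integral_congr_ae (Filter.Eventually.of_forall fun p => ?_)
      show F p * fderiv ℝ u p (Complex.I, (0 : ℝ)) = _
      by_cases hp : p ∈ Metric.ball p0 r
      · rw [comb2 hΩ hφ hu (hball hp)]
        ring
      · simp only [hF0 p hp, zero_mul, sub_zero, add_zero]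
    rw [h4]
    exact int3a h1 h2 h3 (hkey _ frX _ (sm_b2 hφ)) (hkey _ frH _ (sm_b1 hφ))
      (hkey _ frV _ (sm_b3 hΩ hφ 1))
  · have h4 : ∫ p, F p * fderiv ℝ u p ((0 : ℂ), (1 : ℝ)) =
        ∫ p, F p * (fderiv ℝ (fun p => b0 φ p * u p) p VV * Real.exp (2 * φ p.1)) := by
      refine integral_congr_ae (Filter.Eventually.of_forall fun p => ?_)
      show F p * fderiv ℝ u p ((0 : ℂ), (1 : ℝ)) = _
      by_cases hp : p ∈ Metric.ball p0 r
      · rw [comb3 hΩ hφ hu (hball hp)]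
      · simp only [hF0 p hp, zero_mul, sub_zero, add_zero]
    rw [h4]
    exact hkey _ frV _ (sm_b0 hφ)

/-- **Invariant functions are locally constant where the curvature is negative.** -/
theorem loc : StFrame → StEt → StWeak → StPush → StCV → StDWP → StLoc := by
  intro hFrame hEt hWeak hPush hCV hDWP M P _ _ _ _ _ _ Ω φ pr q m hUT hL f hf hfb hK p0 hp0 hneg
  have hΩ : IsOpen Ω := hUT.opn
  have hφ : ContDiffOn ℝ ∞ φ Ω := hUT.smooth
  obtain ⟨-, -, hcs, -⟩ := hFrame Ω φ hΩ hφ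
  obtain ⟨C, hC⟩ := hfb
  obtain ⟨r1, hr1, hb1, hi1, hpush⟩ := hPush M P Ω φ pr q hUT p0 hp0
  obtain ⟨-, -, hgerm⟩ := hEt M P Ω φ pr q hUT
  obtain ⟨hlft, -, hdw⟩ := hDWP M P Ω φ pr q hUT
  -- the curvature
  have hcont : ContinuousAt (fun p : Y => curv φ p.1) p0 :=
    (hcs.continuousOn.continuousAt (hΩ.mem_nhds hp0)).comp continuousAt_fst
  obtain ⟨r2, hr2, hb2⟩ : ∃ r2 > 0, ∀ p ∈ Metric.ball p0 r2, curv φ p.1 < curv φ p0.1 / 2 := by
    have h1 : ∀ᶠ p in 𝓝 p0, curv φ p.1 < curv φ p0.1 / 2 :=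
      hcont.eventually_lt_const (show curv φ p0.1 < curv φ p0.1 / 2 by linarith)
    obtain ⟨r2, hr2, h2⟩ := Metric.eventually_nhds_iff_ball.mp h1
    exact ⟨r2, hr2, h2⟩
  obtain ⟨r, hr, hrr1, hrr2⟩ : ∃ r : ℝ, 0 < r ∧ r ≤ r1 ∧ r ≤ r2 :=
    ⟨min r1 r2, lt_min hr1 hr2, min_le_left _ _, min_le_right _ _⟩
  have hs1 : Metric.ball p0 r ⊆ Metric.ball p0 r1 := Metric.ball_subset_ball hrr1
  have hs2 : Metric.ball p0 r ⊆ Metric.ball p0 r2 := Metric.ball_subset_ball hrr2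
  have hBO : Metric.ball p0 r ⊆ YO Ω := hs1.trans hb1
  have hBi : InjOn q (Metric.ball p0 r) := hi1.mono hs1
  have hBm : MeasurableSet (Metric.ball p0 r) := measurableSet_ball
  have hC0 : 0 ≤ C := (abs_nonneg _).trans (hC (q p0))
  obtain ⟨F, hFdef⟩ : ∃ F : Y → ℝ, F = (Metric.ball p0 r).indicator (fun p => f (q p)) := ⟨_, rfl⟩
  have hFin : ∀ p ∈ Metric.ball p0 r, F p = f (q p) := by
    intro p hp
    rw [hFdef, indicator_of_mem hp]
  have hFout : ∀ p, p ∉ Metric.ball p0 r → F p = 0 := by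
    intro p hp
    rw [hFdef, indicator_of_notMem hp]
  have hFm : AEStronglyMeasurable F volume := by
    rw [hFdef, aestronglyMeasurable_indicator_iff hBm]
    have h1 : AEMeasurable q (volume.restrict (Metric.ball p0 r)) :=
      (hUT.contq.mono hBO).aemeasurable hBm
    exact (hf.comp_aemeasurable h1).aestronglyMeasurable
  have hFb : ∀ p, |F p| ≤ C := by
    intro p
    by_cases hp : p ∈ Metric.ball p0 r
    · rw [hFin p hp]
      exact hC _
    · rw [hFout p hp, abs_zero]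
      exact hC0
  have key : ∀ W, Fr φ W → ∀ v : Y → ℝ, ContDiff ℝ 1 v → HasCompactSupport v →
      tsupport v ⊆ Metric.ball p0 r →
      ∫ p, F p * (fderiv ℝ v p (W p) * Real.exp (2 * φ p.1)) = 0 := by
    intro W hW v hv hvc hvs
    obtain ⟨G, hGA, hGv, hG0⟩ := hpush v hv hvc (hvs.trans hs1)
    have hk : ∀ x, G x ≠ 0 → -(curv φ p0.1 / 2) ≤ kP Ω φ q x := by
      intro x hx
      have h1 : x ∈ q '' tsupport v := by
        by_contra h
        exact hx (hG0 x h)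
      obtain ⟨y, hy, rfl⟩ := h1
      have hyb := hvs hy
      have hyO : y ∈ YO Ω := hBO hyb
      obtain ⟨hl1, hl2⟩ := hlft (q y)
      obtain ⟨U, A, -, hyU, -, -, hA, hA2⟩ := hgerm y hyO (lft Ω q (q y)) hl1 hl2.symm
      have h3 := (hA2 y hyU).2.2.1
      rw [hA] at h3
      have h4 := hb2 y (hs2 hyb)
      show _ ≤ -curv φ (lft Ω q (q y)).1
      rw [h3]
      linarith
    have h0 := hK G _ hGA (by linarith) hk W hW
    have hd := (hdw G hGA).2 W hW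
    have hKc : IsCompact (q '' tsupport v) :=
      hvc.isCompact.image_of_continuousOn (hUT.contq.mono (hvs.trans hBO))
    have hoff : ∀ x, x ∉ q '' tsupport v → dW Ω q W G x = 0 := by
      intro x hx
      obtain ⟨hl1, hl2⟩ := hlft x
      have h1 := hd.1 (lft Ω q x) hl1
      rw [hl2] at h1
      rw [h1]
      have h2 : (fun p => G (q p)) =ᶠ[𝓝 (lft Ω q x)] fun _ => (0 : ℝ) := by
        have h3 : ContinuousAt q (lft Ω q x) := hUT.contq.continuousAt ((opnYO hΩ).mem_nhds hl1)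
        have h4 : (q '' tsupport v)ᶜ ∈ 𝓝 (q (lft Ω q x)) := by
          rw [hl2]
          exact hKc.isClosed.isOpen_compl.mem_nhds hx
        filter_upwards [h3 h4] with y hy
        exact hG0 _ hy
      rw [h2.fderiv_eq]
      simp
    obtain ⟨hm1, -, hcv⟩ := hCV M P Ω φ pr q m hUT hL _ hBm hBO hBi
    have h5 := hcv (fun x => f x * dW Ω q W G x) (hf.mul hd.2.measurable)
    have h6 : ∫ x in q '' Metric.ball p0 r, f x * dW Ω q W G x ∂m =
        ∫ x, f x * dW Ω q W G x ∂m := by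
      apply setIntegral_eq_integral_of_forall_compl_eq_zero
      intro x hx
      rw [hoff x (fun h => hx (image_mono hvs h)), mul_zero]
    rw [h6, h0] at h5
    have h7 : ∫ p, F p * (fderiv ℝ v p (W p) * Real.exp (2 * φ p.1)) =
        ∫ p in Metric.ball p0 r, f (q p) * dW Ω q W G (q p) * Real.exp (2 * φ p.1) := by
      rw [← integral_indicator hBm]
      refine integral_congr_ae (Filter.Eventually.of_forall fun p => ?_)
      show F p * (fderiv ℝ v p (W p) * Real.exp (2 * φ p.1)) = _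
      by_cases hp : p ∈ Metric.ball p0 r
      · rw [indicator_of_mem hp, hFin p hp]
        have h8 := hd.1 p (hBO hp)
        have h9 : (fun p => G (q p)) =ᶠ[𝓝 p] v := by
          filter_upwards [Metric.isOpen_ball.mem_nhds hp] with y hy
          exact hGv y (hs1 hy)
        rw [h8, h9.fderiv_eq]
        ring
      · rw [indicator_of_notMem hp, hFout p hp, zero_mul]
    rw [h7]
    exact h5.symm
  obtain ⟨a, ha⟩ := hWeak F p0 r C hr hFm hFb (three hFrame hΩ hφ hBO hFm hFb hFout key)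
  refine ⟨r, a, hr, hBO, ?_⟩
  have h1 : ∀ᵐ p ∂volume.restrict (Metric.ball p0 r), p ∈ Metric.ball p0 r :=
    ae_restrict_mem hBm
  filter_upwards [ha, h1] with p hp hpB
  rw [← hFin p hpB]
  exact hp

end Pool.Agent.Y319.EG
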